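import Pool.Agent.MTF.StmtsA

/-!
# MTF: existence of a derivation with given values
-/

set_option autoImplicit false

open TensorProduct

namespace Pool.Agent.MTF.H69

open scoped IntermediateField.algebraAdjoinAdjoin in
/-- In characteristic zero a field is formally smooth over every finitely generated subalgebra. -/
theorem fsm (K : Type) [Field K] [CharZero K] (k : Subfield K) (S : Set K) :
    Algebra.FormallySmooth (Algebra.adjoin k S) K := by
  have h1 : Algebra.FormallySmooth (Algebra.adjoin k S) (IntermediateField.adjoin k S) :=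
    .of_isLocalization (nonZeroDivisors _)
  have h2 : Algebra.FormallySmooth (IntermediateField.adjoin k S) K := by
    obtain ⟨s, hs⟩ := exists_isTranscendenceBasis (IntermediateField.adjoin k S) K
    have halg := hs.isAlgebraic_field
    have hsep : Algebra.IsSeparable
        (IntermediateField.adjoin (IntermediateField.adjoin k S) (Set.range ((↑) : s → K))) K :=
      inferInstance
    exact .of_algebraicIndependent_of_isSeparable hs.1
  exact .comp _ (IntermediateField.adjoin k S) _

/-- Extension of derivations from a subalgebra. -/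
theorem ext_der (K : Type) [Field K] [CharZero K] (k : Subfield K) (S : Set K)
    (d : Derivation k (Algebra.adjoin k S) K) :
    ∃ D : Derivation k K K, ∀ a : Algebra.adjoin k S, D (a : K) = d a := by
  have := fsm K k S
  have hinj : Function.Injective (KaehlerDifferential.mapBaseChange k (Algebra.adjoin k S) K) := by
    have hsub : Subsingleton (Algebra.H1Cotangent (Algebra.adjoin k S) K) :=
      Algebra.FormallySmooth.subsingleton_h1Cotangent
    have hex := Algebra.H1Cotangent.exact_δ_mapBaseChange k (Algebra.adjoin k S) K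
    rw [injective_iff_map_eq_zero]
    intro x hx
    obtain ⟨y, rfl⟩ := (hex x).1 hx
    rw [Subsingleton.elim y 0, map_zero]
  obtain ⟨g, hg⟩ := LinearMap.exists_leftInverse_of_injective
    (KaehlerDifferential.mapBaseChange k (Algebra.adjoin k S) K) (LinearMap.ker_eq_bot.2 hinj)
  refine ⟨((d.liftKaehlerDifferential.liftBaseChange K).comp g).compDer
    (KaehlerDifferential.D k K), fun a => ?_⟩
  have h1 : KaehlerDifferential.D k K (a : K) =
      KaehlerDifferential.mapBaseChange k (Algebra.adjoin k S) K
        (1 ⊗ₜ KaehlerDifferential.D k (Algebra.adjoin k S) a) := by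
    rw [KaehlerDifferential.mapBaseChange_tmul, one_smul, KaehlerDifferential.map_D]
    rfl
  have h2 : g (KaehlerDifferential.mapBaseChange k (Algebra.adjoin k S) K
        (1 ⊗ₜ KaehlerDifferential.D k (Algebra.adjoin k S) a)) =
      1 ⊗ₜ KaehlerDifferential.D k (Algebra.adjoin k S) a :=
    LinearMap.congr_fun hg _
  change (d.liftKaehlerDifferential.liftBaseChange K) (g (KaehlerDifferential.D k K (a : K))) = d a
  rw [h1, h2, LinearMap.liftBaseChange_tmul, one_smul, Derivation.liftKaehlerDifferential_comp_D]

theorem dex : DexStmt := by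
  classical
  intro K _ _ k σ _ y v hR
  -- the derivation of the polynomial ring
  set D₀ : MvPolynomial σ k →ₗ[k] K :=
    ∑ i, (LinearMap.mulRight k (v i)).comp
      ((MvPolynomial.aeval y).toLinearMap.comp
        ((MvPolynomial.pderiv i : Derivation k (MvPolynomial σ k) (MvPolynomial σ k)) :
          MvPolynomial σ k →ₗ[k] MvPolynomial σ k)) with hD₀
  have hD : ∀ R, D₀ R = ∑ i, MvPolynomial.aeval y (MvPolynomial.pderiv i R) * v i := by
    intro R
    rw [hD₀, LinearMap.sum_apply]
    rfl
  have hker : ∀ R, MvPolynomial.aeval y R = 0 → D₀ R = 0 := fun R h => by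
    rw [hD]
    exact hR R h
  have hwd : ∀ R R', MvPolynomial.aeval y R = MvPolynomial.aeval y R' → D₀ R = D₀ R' := by
    intro R R' h
    have := hker (R - R') (by rw [map_sub, h, sub_self])
    rwa [map_sub, sub_eq_zero] at this
  have hmem : ∀ a : Algebra.adjoin k (Set.range y), ∃ R : MvPolynomial σ k,
      MvPolynomial.aeval y R = (a : K) := by
    rintro ⟨a, ha⟩
    have ha' := ha
    rw [Algebra.adjoin_range_eq_range_aeval] at ha'
    obtain ⟨R, hR⟩ := ha'
    exact ⟨R, hR⟩
  choose pre hpre using hmem
  set f : Algebra.adjoin k (Set.range y) →ₗ[k] K :=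
    { toFun := fun a => D₀ (pre a)
      map_add' := fun a b => by
        rw [← map_add]
        exact hwd _ _ (by rw [map_add, hpre, hpre, hpre]; rfl)
      map_smul' := fun t a => by
        rw [RingHom.id_apply, ← map_smul]
        exact hwd _ _ (by rw [map_smul, hpre, hpre]; rfl) } with hf
  have hfa : ∀ (a : Algebra.adjoin k (Set.range y)) (R : MvPolynomial σ k),
      MvPolynomial.aeval y R = (a : K) → f a = D₀ R := by
    intro a R h
    exact hwd _ _ ((hpre a).trans h.symm)
  have hleib : ∀ a b, f (a * b) = a • f b + b • f a := by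
    intro a b
    have h1 : MvPolynomial.aeval y (pre a * pre b) = ((a * b : Algebra.adjoin k (Set.range y)) : K) :=
      by rw [map_mul, hpre, hpre]; rfl
    rw [hfa _ _ h1, hfa a _ (hpre a), hfa b _ (hpre b), hD, hD, hD, Algebra.smul_def,
      Algebra.smul_def]
    change _ = (a : K) * _ + (b : K) * _
    rw [Finset.mul_sum, Finset.mul_sum, ← Finset.sum_add_distrib]
    refine Finset.sum_congr rfl fun i _ => ?_
    rw [Derivation.leibniz, map_add, smul_eq_mul, smul_eq_mul, map_mul, map_mul, hpre, hpre]
    ring
  obtain ⟨D, hDD⟩ := ext_der K k (Set.range y) (Derivation.mk' f hleib)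
  refine ⟨D, fun i => ?_⟩
  have hyi : y i ∈ Algebra.adjoin k (Set.range y) := Algebra.subset_adjoin ⟨i, rfl⟩
  have h1 := hDD ⟨y i, hyi⟩
  change D (y i) = f ⟨y i, hyi⟩ at h1
  rw [h1, hfa ⟨y i, hyi⟩ (MvPolynomial.X i) (MvPolynomial.aeval_X y i), hD,
    Finset.sum_eq_single i]
  · rw [MvPolynomial.pderiv_X_self, map_one, one_mul]
  · intro j _ hj
    rw [MvPolynomial.pderiv_X_of_ne hj.symm, map_zero, zero_mul]
  · intro h
    exact absurd (Finset.mem_univ i) h

end Pool.Agent.MTF.H69
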